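import Mathlib

set_option autoImplicit false

/-!
# The kernel `exp (-α/t - β t)` and its derivatives
-/

open Set Filter Topology Metric

namespace Pool.Agent.K7.H83.Trk

/-- the holomorphic function `exp (-α/z - β z)` on the right half plane -/
noncomputable def PC (α β : ℝ) (z : ℂ) : ℂ := Complex.exp (-(α / z) - β * z)

/-- the `k`-th derivative of `exp (-α/t - β t)`, extended by `0` to `t ≤ 0` -/
noncomputable def pk (α β : ℝ) (k : ℕ) (t : ℝ) : ℝ :=
  if 0 < t then (iteratedDeriv k (PC α β) (t : ℂ)).re else 0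

lemma PC_diff (α β : ℝ) : DifferentiableOn ℂ (PC α β) {z | z ≠ 0} := by
  intro z hz
  have hz' : z ≠ 0 := hz
  unfold PC
  apply DifferentiableAt.differentiableWithinAt
  fun_prop (disch := exact hz')

lemma PC_analytic (α β : ℝ) {z : ℂ} (hz : z ≠ 0) : AnalyticAt ℂ (PC α β) z := by
  have ho : IsOpen {z : ℂ | z ≠ 0} := isOpen_ne
  exact (PC_diff α β).analyticAt (ho.mem_nhds hz)

lemma iter_hasDeriv (α β : ℝ) (k : ℕ) {z : ℂ} (hz : z ≠ 0) :
    HasDerivAt (iteratedDeriv k (PC α β)) (iteratedDeriv (k + 1) (PC α β) z) z := by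
  rw [iteratedDeriv_succ]
  have h := (AnalyticAt.iterated_deriv (PC_analytic α β hz) k).differentiableAt.hasDerivAt
  rw [← iteratedDeriv_eq_iterate] at h
  exact h

lemma norm_PC {α β : ℝ} (hα : 0 ≤ α) (hβ : 0 ≤ β) {t : ℝ} (ht : 0 < t) {z : ℂ}
    (hz : z ∈ closedBall (t : ℂ) (t / 2)) : ‖PC α β z‖ ≤ Real.exp (-(2 * α / (3 * t))) := by
  unfold PC
  rw [Complex.norm_exp]
  apply Real.exp_le_exp.2
  rw [mem_closedBall, dist_eq_norm] at hz
  have h1 : (z.re - t) ^ 2 + z.im ^ 2 ≤ (t / 2) ^ 2 := by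
    have h2 : ‖z - t‖ ^ 2 ≤ (t / 2) ^ 2 := pow_le_pow_left₀ (norm_nonneg _) hz 2
    rw [← Complex.normSq_eq_norm_sq, Complex.normSq_apply] at h2
    simp only [Complex.sub_re, Complex.ofReal_re, Complex.sub_im, Complex.ofReal_im, sub_zero] at h2
    nlinarith
  have hre : t / 2 ≤ z.re := by nlinarith [sq_nonneg z.im, abs_le.1 (abs_le_of_sq_le_sq (show (z.re - t) ^ 2 ≤ (t / 2) ^ 2 by nlinarith [sq_nonneg z.im]) (by linarith))]
  have hre2 : z.re ≤ 3 * t / 2 := by nlinarith [sq_nonneg z.im, abs_le.1 (abs_le_of_sq_le_sq (show (z.re - t) ^ 2 ≤ (t / 2) ^ 2 by nlinarith [sq_nonneg z.im]) (by linarith))]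
  have hns : 0 < Complex.normSq z := by
    rw [Complex.normSq_apply]; nlinarith [mul_self_nonneg z.im]
  have hinv : 2 / (3 * t) ≤ z.re / Complex.normSq z := by
    rw [div_le_div_iff₀ (by positivity) hns, Complex.normSq_apply]
    nlinarith
  have e1 : (-((α : ℂ) / z) - β * z).re = -(α * (z.re / Complex.normSq z)) - β * z.re := by
    simp only [Complex.sub_re, Complex.neg_re, Complex.mul_re, Complex.ofReal_re, Complex.ofReal_im,
      zero_mul, sub_zero, Complex.div_re, zero_div, add_zero]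
    ring
  rw [e1]
  have h3 : α * (2 / (3 * t)) ≤ α * (z.re / Complex.normSq z) := mul_le_mul_of_nonneg_left hinv hα
  have h4 : 0 ≤ β * z.re := by
    apply mul_nonneg hβ; linarith
  have e2 : 2 * α / (3 * t) = α * (2 / (3 * t)) := by ring
  rw [e2]
  linarith

lemma iter_bound {α β : ℝ} (hα : 0 ≤ α) (hβ : 0 ≤ β) (k : ℕ) {t : ℝ} (ht : 0 < t) :
    ‖iteratedDeriv k (PC α β) (t : ℂ)‖ ≤
      k.factorial * Real.exp (-(2 * α / (3 * t))) / (t / 2) ^ k := by
  refine Complex.norm_iteratedDeriv_le_of_forall_mem_sphere_norm_le k (by positivity) ?_ ?_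
  · have hs : closedBall (t : ℂ) (t / 2) ⊆ {z | z ≠ 0} := by
      intro z hz h0
      rw [mem_closedBall, dist_eq_norm, h0, zero_sub, norm_neg, Complex.norm_real,
        Real.norm_eq_abs, abs_of_pos ht] at hz
      linarith
    apply DifferentiableOn.diffContOnCl
    rw [closure_ball _ (by positivity)]
    exact (PC_diff α β).mono hs
  · intro z hz
    exact norm_PC hα hβ ht (sphere_subset_closedBall hz)

lemma exp_trade {x : ℝ} (hx : 0 ≤ x) (n : ℕ) : x ^ n * Real.exp (-x) ≤ n.factorial := by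
  have h := Real.pow_div_factorial_le_exp x hx n
  have hf : (0 : ℝ) < n.factorial := by exact_mod_cast n.factorial_pos
  rw [div_le_iff₀ hf] at h
  calc x ^ n * Real.exp (-x) ≤ (Real.exp x * n.factorial) * Real.exp (-x) :=
        mul_le_mul_of_nonneg_right h (Real.exp_pos _).le
    _ = n.factorial * (Real.exp x * Real.exp (-x)) := by ring
    _ = n.factorial := by rw [← Real.exp_add]; simp

/-- bound with a free power of `t` -/
lemma iter_bound2 {α β : ℝ} (hα : 0 < α) (hβ : 0 ≤ β) (k m : ℕ) {t : ℝ} (ht : 0 < t) :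
    ‖iteratedDeriv k (PC α β) (t : ℂ)‖ ≤
      k.factorial * (k + m).factorial * (3 / α) ^ k * (3 * t / (2 * α)) ^ m := by
  refine (iter_bound hα.le hβ k ht).trans ?_
  set x : ℝ := 2 * α / (3 * t) with hx
  have hx0 : 0 < x := by positivity
  have e1 : (t / 2) ^ k = (α / 3) ^ k / x ^ k := by
    rw [← div_pow]; congr 1; rw [hx]; field_simp
  have e2 : 3 * t / (2 * α) = x⁻¹ := by rw [hx]; field_simp
  rw [e1, e2]
  have h := exp_trade hx0.le (k + m)
  have hf : (0 : ℝ) < k.factorial := by exact_mod_cast k.factorial_pos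
  have h3 : k.factorial * Real.exp (-x) / ((α / 3) ^ k / x ^ k)
      = k.factorial * (3 / α) ^ k * (x⁻¹) ^ m * (x ^ (k + m) * Real.exp (-x)) := by
    rw [pow_add]
    have : (3 / α) ^ k = ((α / 3) ^ k)⁻¹ := by rw [← inv_pow]; congr 1; rw [inv_div]
    have h5 : x⁻¹ ^ m * x ^ m = 1 := by rw [← mul_pow, inv_mul_cancel₀ hx0.ne', one_pow]
    rw [this]
    rw [show k.factorial * ((α / 3) ^ k)⁻¹ * x⁻¹ ^ m * (x ^ k * x ^ m * Real.exp (-x)) =
      k.factorial * ((α / 3) ^ k)⁻¹ * (x⁻¹ ^ m * x ^ m) * (x ^ k * Real.exp (-x)) by ring, h5]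
    field_simp
  rw [h3]
  calc k.factorial * (3 / α) ^ k * (x⁻¹) ^ m * (x ^ (k + m) * Real.exp (-x))
      ≤ k.factorial * (3 / α) ^ k * (x⁻¹) ^ m * (k + m).factorial :=
        mul_le_mul_of_nonneg_left h (by positivity)
    _ = _ := by ring

lemma pk_abs_le {α β : ℝ} (hα : 0 < α) (hβ : 0 ≤ β) (k : ℕ) (t : ℝ) :
    |pk α β k t| ≤ (2 * k).factorial * (3 / α) ^ k := by
  unfold pk
  split_ifs with ht
  · refine (Complex.abs_re_le_norm _).trans ((iter_bound2 hα hβ k 0 ht).trans ?_)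
    rw [pow_zero, mul_one, add_zero]
    refine mul_le_mul_of_nonneg_right ?_ (by positivity)
    rw [two_mul]
    exact_mod_cast Nat.le_of_dvd (Nat.factorial_pos _) (Nat.factorial_mul_factorial_dvd_factorial_add k k)
  · rw [abs_zero]; positivity

lemma pk_zero_of_nonpos {α β : ℝ} (k : ℕ) {t : ℝ} (ht : t ≤ 0) : pk α β k t = 0 := by
  unfold pk
  rw [if_neg (not_lt.2 ht)]

lemma pk_zero_pos {α β : ℝ} {t : ℝ} (ht : 0 < t) : pk α β 0 t = Real.exp (-(α / t) - β * t) := by
  unfold pk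
  rw [if_pos ht, iteratedDeriv_zero]
  unfold PC
  have : (-((α : ℂ) / (t : ℂ)) - β * (t : ℂ)) = ((-(α / t) - β * t : ℝ) : ℂ) := by push_cast; ring
  rw [this, ← Complex.ofReal_exp, Complex.ofReal_re]

lemma pk_zero_nonneg {α β : ℝ} (t : ℝ) : 0 ≤ pk α β 0 t := by
  rcases lt_or_ge 0 t with h | h
  · rw [pk_zero_pos h]; exact (Real.exp_pos _).le
  · rw [pk_zero_of_nonpos 0 h]

lemma pk_hasDeriv {α β : ℝ} (hα : 0 < α) (hβ : 0 ≤ β) (k : ℕ) (t : ℝ) :
    HasDerivAt (pk α β k) (pk α β (k + 1) t) t := by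
  rcases lt_trichotomy 0 t with ht | ht | ht
  · have h1 := (iter_hasDeriv α β k (z := (t : ℂ)) (by exact_mod_cast ht.ne')).real_of_complex
    have h2 : pk α β (k + 1) t = (iteratedDeriv (k + 1) (PC α β) (t : ℂ)).re := by
      unfold pk; rw [if_pos ht]
    rw [h2]
    refine h1.congr_of_eventuallyEq ?_
    filter_upwards [lt_mem_nhds ht] with s hs
    unfold pk; rw [if_pos hs]
  · subst ht
    rw [pk_zero_of_nonpos (k + 1) le_rfl]
    rw [hasDerivAt_iff_isLittleO_nhds_zero]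
    simp only [zero_add, smul_zero, sub_zero]
    rw [pk_zero_of_nonpos k le_rfl]
    simp only [sub_zero]
    set C : ℝ := k.factorial * (k + 2).factorial * (3 / α) ^ k * (3 / (2 * α)) ^ 2 with hC
    have hbig : (fun h : ℝ => pk α β k h) =O[𝓝 0] (fun h : ℝ => h ^ 2) := by
      refine Asymptotics.IsBigO.of_bound C (Eventually.of_forall fun h => ?_)
      rcases lt_or_ge 0 h with hh | hh
      · unfold pk
        rw [if_pos hh, Real.norm_eq_abs]
        refine (Complex.abs_re_le_norm _).trans ((iter_bound2 hα hβ k 2 hh).trans ?_)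
        rw [Real.norm_eq_abs, abs_of_nonneg (sq_nonneg h), hC]
        apply le_of_eq
        rw [show 3 * h / (2 * α) = (3 / (2 * α)) * h by ring, mul_pow]
        ring
      · rw [pk_zero_of_nonpos k hh, norm_zero]
        positivity
    refine hbig.trans_isLittleO ?_
    have := Asymptotics.isLittleO_pow_id (𝕜 := ℝ) (n := 2) (by norm_num)
    exact this
  · rw [pk_zero_of_nonpos (k + 1) ht.le]
    refine (hasDerivAt_const t (0 : ℝ)).congr_of_eventuallyEq ?_
    filter_upwards [gt_mem_nhds ht] with s hs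
    exact pk_zero_of_nonpos k (le_of_lt hs)

lemma pk_continuous {α β : ℝ} (hα : 0 < α) (hβ : 0 ≤ β) (k : ℕ) : Continuous (pk α β k) :=
  continuous_iff_continuousAt.2 fun t => (pk_hasDeriv hα hβ k t).continuousAt

end Pool.Agent.K7.H83.Trk
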