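import Pool.Agent.R190.Trk.Defs

set_option autoImplicit false

/-!
# Solutions of the heat equation from the flux at the left end by power series in `x`
-/

open Set Filter Topology

namespace Pool.Agent.K7.H83.Trk

open Pool.Agent.R190.Trk

/-- the coefficients `x ^ n / n!` -/
noncomputable def cf (n : ℕ) (x : ℝ) : ℝ := x ^ n / n.factorial

lemma cf_hasDeriv (n : ℕ) (x : ℝ) : HasDerivAt (cf (n + 1)) (cf n x) x := by
  unfold cf
  have h := (hasDerivAt_pow (n + 1) x).div_const ((n + 1).factorial : ℝ)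
  convert! h using 1
  rw [Nat.factorial_succ]
  push_cast
  have h1 : (n.factorial : ℝ) ≠ 0 := by exact_mod_cast n.factorial_ne_zero
  have h2 : ((n : ℝ) + 1) ≠ 0 := by positivity
  field_simp

lemma cf_zero_deriv (x : ℝ) : HasDerivAt (cf 0) 0 x := by
  unfold cf
  simpa using hasDerivAt_const x (1 : ℝ)

/-- The data: a sequence of functions each of which is the derivative of the preceding one, with
bounds of Gevrey type of order two. -/
structure Gev (q : ℕ → ℝ → ℝ) (M r R : ℝ) : Prop where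
  hM : 0 ≤ M
  hr : 0 ≤ r
  hR : 0 < R
  lt : r * R ^ 2 < 1
  der : ∀ k t, HasDerivAt (q k) (q (k + 1) t) t
  bd : ∀ k t, |q k t| ≤ M * ((2 * k).factorial * r ^ k)

variable {q : ℕ → ℝ → ℝ} {M r R : ℝ}

/-- the solution -/
noncomputable def sol (q : ℕ → ℝ → ℝ) (t x : ℝ) : ℝ := ∑' k : ℕ, cf (2 * k + 1) x * q k t

lemma cf_abs {n : ℕ} {x R : ℝ} (hx : |x| ≤ R) : |cf n x| ≤ R ^ n / n.factorial := by
  unfold cf
  rw [abs_div, abs_pow, abs_of_nonneg (show (0 : ℝ) ≤ n.factorial by positivity)]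
  exact div_le_div_of_nonneg_right (pow_le_pow_left₀ (abs_nonneg _) hx n) (by positivity)

lemma term_even (h : Gev q M r R) {x : ℝ} (hx : |x| ≤ R) (k : ℕ) (t : ℝ) :
    |cf (2 * k) x * q k t| ≤ M * (r * R ^ 2) ^ k := by
  rw [abs_mul]
  calc |cf (2 * k) x| * |q k t| ≤ (R ^ (2 * k) / (2 * k).factorial) *
        (M * ((2 * k).factorial * r ^ k)) := by
        apply mul_le_mul (cf_abs hx) (h.bd k t) (abs_nonneg _)
        have := h.hR
        positivity
    _ = M * (r * R ^ 2) ^ k := by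
        have h1 : ((2 * k).factorial : ℝ) ≠ 0 := by exact_mod_cast Nat.factorial_ne_zero _
        rw [mul_pow, ← pow_mul]
        field_simp

lemma term_odd (h : Gev q M r R) {x : ℝ} (hx : |x| ≤ R) (k : ℕ) (t : ℝ) :
    |cf (2 * k + 1) x * q k t| ≤ M * R * (r * R ^ 2) ^ k := by
  rw [abs_mul]
  have hR := h.hR
  have hM := h.hM
  have hr := h.hr
  calc |cf (2 * k + 1) x| * |q k t| ≤ (R ^ (2 * k + 1) / (2 * k + 1).factorial) *
        (M * ((2 * k).factorial * r ^ k)) := by
        apply mul_le_mul (cf_abs hx) (h.bd k t) (abs_nonneg _)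
        positivity
    _ ≤ (R ^ (2 * k + 1) / (2 * k).factorial) * (M * ((2 * k).factorial * r ^ k)) := by
        apply mul_le_mul_of_nonneg_right _ (by positivity)
        apply div_le_div_of_nonneg_left (by positivity) (by positivity)
        exact_mod_cast Nat.factorial_le (Nat.le_succ _)
    _ = M * R * (r * R ^ 2) ^ k := by
        have h1 : ((2 * k).factorial : ℝ) ≠ 0 := by exact_mod_cast Nat.factorial_ne_zero _
        rw [mul_pow, ← pow_mul, pow_succ]
        field_simp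

/-- bound of the terms with one more time derivative -/
lemma term_next (h : Gev q M r R) {x : ℝ} (hx : |x| ≤ R) (k : ℕ) (t : ℝ) :
    |cf (2 * k + 1) x * q (k + 1) t| ≤ M * r * R * ((2 * (k : ℝ) + 2) * (r * R ^ 2) ^ k) := by
  rw [abs_mul]
  have hR := h.hR
  have hM := h.hM
  have hr := h.hr
  calc |cf (2 * k + 1) x| * |q (k + 1) t| ≤ (R ^ (2 * k + 1) / (2 * k + 1).factorial) *
        (M * ((2 * (k + 1)).factorial * r ^ (k + 1))) := by
        apply mul_le_mul (cf_abs hx) (h.bd (k + 1) t) (abs_nonneg _)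
        positivity
    _ = M * r * R * ((2 * (k : ℝ) + 2) * (r * R ^ 2) ^ k) := by
        have h1 : ((2 * k + 1).factorial : ℝ) ≠ 0 := by exact_mod_cast Nat.factorial_ne_zero _
        have h2 : ((2 * (k + 1)).factorial : ℝ) = (2 * (k : ℝ) + 2) * (2 * k + 1).factorial := by
          rw [show 2 * (k + 1) = (2 * k + 1) + 1 by ring, Nat.factorial_succ]
          push_cast
          ring
        rw [h2, mul_pow, ← pow_mul, pow_succ, pow_succ]
        field_simp

lemma summ_geo (h : Gev q M r R) : Summable fun k : ℕ => (r * R ^ 2) ^ k :=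
  summable_geometric_of_lt_one (mul_nonneg h.hr (sq_nonneg _)) h.lt

lemma summ_lin (h : Gev q M r R) : Summable fun k : ℕ => (2 * (k : ℝ) + 2) * (r * R ^ 2) ^ k := by
  have h1 : Summable fun k : ℕ => (k : ℝ) ^ 1 * (r * R ^ 2) ^ k := by
    apply summable_pow_mul_geometric_of_norm_lt_one
    rw [Real.norm_eq_abs, abs_of_nonneg (mul_nonneg h.hr (sq_nonneg _))]
    exact h.lt
  have h2 := (h1.mul_left 2).add ((summ_geo h).mul_left 2)
  refine h2.congr fun k => ?_
  ring

lemma summ_even (h : Gev q M r R) {x : ℝ} (hx : |x| ≤ R) (t : ℝ) :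
    Summable fun k : ℕ => cf (2 * k) x * q k t :=
  Summable.of_norm_bounded ((summ_geo h).mul_left M) fun k => term_even h hx k t

lemma summ_odd (h : Gev q M r R) {x : ℝ} (hx : |x| ≤ R) (t : ℝ) :
    Summable fun k : ℕ => cf (2 * k + 1) x * q k t :=
  Summable.of_norm_bounded ((summ_geo h).mul_left (M * R)) fun k => term_odd h hx k t

lemma summ_next (h : Gev q M r R) {x : ℝ} (hx : |x| ≤ R) (t : ℝ) :
    Summable fun k : ℕ => cf (2 * k + 1) x * q (k + 1) t :=
  Summable.of_norm_bounded ((summ_lin h).mul_left (M * r * R)) fun k => term_next h hx k t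

lemma sol_dt (h : Gev q M r R) {x : ℝ} (hx : |x| ≤ R) (t : ℝ) :
    HasDerivAt (fun s => sol q s x) (∑' k : ℕ, cf (2 * k + 1) x * q (k + 1) t) t := by
  unfold sol
  exact hasDerivAt_tsum (g := fun k s => cf (2 * k + 1) x * q k s)
    (g' := fun k s => cf (2 * k + 1) x * q (k + 1) s) ((summ_lin h).mul_left (M * r * R))
    (fun k s => (h.der k s).const_mul _) (fun k s => term_next h hx k s)
    (summ_odd h hx 0) t

lemma isPre (R : ℝ) : IsPreconnected (Ioo (-R) R) := isPreconnected_Ioo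

lemma abs_of_Ioo {x R : ℝ} (hx : x ∈ Ioo (-R) R) : |x| ≤ R := (abs_lt.2 ⟨hx.1, hx.2⟩).le

lemma sol_dx (h : Gev q M r R) {x : ℝ} (hx : x ∈ Ioo (-R) R) (t : ℝ) :
    HasDerivAt (sol q t) (∑' k : ℕ, cf (2 * k) x * q k t) x := by
  have h0 : (0 : ℝ) ∈ Ioo (-R) R := ⟨by linarith [h.hR], h.hR⟩
  exact hasDerivAt_tsum_of_isPreconnected (g := fun k z => cf (2 * k + 1) z * q k t)
    (g' := fun k z => cf (2 * k) z * q k t) ((summ_geo h).mul_left M) isOpen_Ioo (isPre R)
    (fun k z _ => (cf_hasDeriv (2 * k) z).mul_const _)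
    (fun k z hz => term_even h (abs_of_Ioo hz) k t) h0
    (summ_odd h (abs_of_Ioo h0) t) hx

lemma sol_dxx (h : Gev q M r R) {x : ℝ} (hx : x ∈ Ioo (-R) R) (t : ℝ) :
    HasDerivAt (fun z => ∑' k : ℕ, cf (2 * k) z * q k t)
      (∑' k : ℕ, cf (2 * k + 1) x * q (k + 1) t) x := by
  have h0 : (0 : ℝ) ∈ Ioo (-R) R := ⟨by linarith [h.hR], h.hR⟩
  have key : HasDerivAt (fun z => ∑' k : ℕ, cf (2 * (k + 1)) z * q (k + 1) t)
      (∑' k : ℕ, cf (2 * k + 1) x * q (k + 1) t) x := by
    refine hasDerivAt_tsum_of_isPreconnected (g := fun k z => cf (2 * (k + 1)) z * q (k + 1) t)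
      (g' := fun k z => cf (2 * k + 1) z * q (k + 1) t) ((summ_lin h).mul_left (M * r * R))
      isOpen_Ioo (isPre R) (fun k z _ => ?_)
      (fun k z hz => term_next h (abs_of_Ioo hz) k t) h0 ?_ hx
    · exact (cf_hasDeriv (2 * k + 1) z).mul_const _
    · exact (summable_nat_add_iff 1).2 (summ_even h (abs_of_Ioo h0) t)
  have e : ∀ᶠ z in 𝓝 x, (∑' k : ℕ, cf (2 * k) z * q k t) =
      cf 0 z * q 0 t + ∑' k : ℕ, cf (2 * (k + 1)) z * q (k + 1) t := by
    filter_upwards [isOpen_Ioo.mem_nhds hx] with z hz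
    exact (summ_even h (abs_of_Ioo hz) t).tsum_eq_zero_add
  refine (HasDerivAt.congr_of_eventuallyEq ?_ e)
  have := ((cf_zero_deriv x).mul_const (q 0 t)).add key
  rw [zero_mul, zero_add] at this
  exact this

lemma sol_heat (h : Gev q M r R) {x : ℝ} (hx : x ∈ Ioo (-R) R) (t : ℝ) : Heat (sol q) t x := by
  refine ⟨_, fun z => ∑' k : ℕ, cf (2 * k) z * q k t, sol_dt h (abs_of_Ioo hx) t, ?_,
    sol_dxx h hx t⟩
  filter_upwards [isOpen_Ioo.mem_nhds hx] with z hz
  exact sol_dx h hz t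

lemma sol_cont (h : Gev q M r R) :
    ContinuousOn (fun p : ℝ × ℝ => sol q p.1 p.2) (univ ×ˢ Icc (-R) R) := by
  unfold sol
  refine continuousOn_tsum (u := fun k => M * R * (r * R ^ 2) ^ k) (fun k => ?_)
    ((summ_geo h).mul_left (M * R)) (fun k p hp => ?_)
  · have h1 : Continuous (q k) := continuous_iff_continuousAt.2 fun t => (h.der k t).continuousAt
    have h2 : Continuous (cf (2 * k + 1)) :=
      continuous_iff_continuousAt.2 fun t => (cf_hasDeriv (2 * k) t).continuousAt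
    exact ((h2.comp continuous_snd).mul (h1.comp continuous_fst)).continuousOn
  · exact term_odd h (abs_le.2 ⟨hp.2.1, hp.2.2⟩) k p.1

lemma sol_zero (q : ℕ → ℝ → ℝ) (t : ℝ) : sol q t 0 = 0 := by
  unfold sol cf
  simp

lemma sol_init (hq : ∀ k t, t ≤ 0 → q k t = 0) (t x : ℝ) (ht : t ≤ 0) : sol q t x = 0 := by
  unfold sol
  simp [hq _ t ht]

lemma sol_flux (h : Gev q M r R) (t : ℝ) : HasDerivAt (sol q t) (q 0 t) 0 := by
  have h0 : (0 : ℝ) ∈ Ioo (-R) R := ⟨by linarith [h.hR], h.hR⟩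
  have h1 := sol_dx h h0 t
  have h2 : (∑' k : ℕ, cf (2 * k) 0 * q k t) = q 0 t := by
    rw [tsum_eq_single 0]
    · unfold cf; simp
    · intro k hk
      unfold cf
      have : 2 * k ≠ 0 := by omega
      simp [this]
  rwa [h2] at h1

lemma sol_abs_le (h : Gev q M r R) {L : ℝ} (hL : 0 ≤ L) (hLR : L ≤ R) {x : ℝ} (hx : |x| ≤ L)
    (t : ℝ) : |sol q t x| ≤ M * L / (1 - r * L ^ 2) := by
  rcases hL.eq_or_lt with h0 | h0
  · have : x = 0 := by
      have h1 : |x| ≤ 0 := by rw [← h0] at hx; exact hx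
      exact abs_nonpos_iff.1 h1
    rw [this, sol_zero, ← h0]; simp
  · have hg : Gev q M r L := ⟨h.hM, h.hr, h0, lt_of_le_of_lt
      (mul_le_mul_of_nonneg_left (pow_le_pow_left₀ hL hLR 2) h.hr) h.lt, h.der, h.bd⟩
    have h1 : |sol q t x| ≤ ∑' k : ℕ, M * L * (r * L ^ 2) ^ k := by
      unfold sol
      exact tsum_of_norm_bounded (f := fun k => cf (2 * k + 1) x * q k t)
        ((summ_geo hg).mul_left (M * L)).hasSum (fun k => term_odd hg hx k t)
    rw [tsum_mul_left, tsum_geometric_of_lt_one (mul_nonneg h.hr (sq_nonneg _)) hg.lt] at h1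
    rw [div_eq_mul_inv]
    exact h1

/-- The power series defines the solution of the boundary value problem. -/
theorem isSol (h : Gev q M r R) {L T : ℝ} (hL : 0 < L) (hLR : L < R)
    (hq : ∀ k t, t ≤ 0 → q k t = 0) : IsSol L T (fun t => sol q t L) (sol q) where
  bdd := ⟨M * L / (1 - r * L ^ 2), fun t _ x hx =>
    sol_abs_le h hL.le hLR.le (abs_le.2 ⟨by linarith [hx.1], hx.2⟩) t⟩
  cont := by
    refine (sol_cont h).mono ?_
    rintro ⟨t, x⟩ ⟨⟨_, hx⟩, _⟩
    exact ⟨mem_univ _, ⟨by linarith [hx.1], by linarith [hx.2]⟩⟩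
  heat := fun t _ x hx => sol_heat h ⟨by linarith [hx.1, h.hR], by linarith [hx.2]⟩ t
  init := fun x _ => sol_init hq 0 x le_rfl
  left := fun t _ => sol_zero q t
  right := fun t _ => rfl

theorem achieves (h : Gev q M r R) {L T ε : ℝ} (hL : 0 < L) (hLR : L < R)
    (hq : ∀ k t, t ≤ 0 → q k t = 0) {w : ℝ → ℝ} (hw : ∀ t ∈ Icc 0 T, |q 0 t - w t| ≤ ε) :
    Achieves L T w ε (fun t => sol q t L) := by
  refine ⟨?_, sol q, q 0, isSol h hL hLR hq, ?_, ?_, hw⟩
  · have h1 : Continuous fun t : ℝ => sol q t L :=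
      continuous_iff_continuousAt.2 fun t =>
        (sol_dt h (abs_le.2 ⟨by linarith, hLR.le⟩) t).continuousAt
    exact h1.continuousOn
  · have h1 : Continuous (q 0) := continuous_iff_continuousAt.2 fun t => (h.der 0 t).continuousAt
    exact h1.continuousOn
  · intro t _
    exact (sol_flux h t).hasDerivWithinAt

end Pool.Agent.K7.H83.Trk
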