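import Pool.Agent.K7.H83.Trk.Kernel
import Pool.Agent.K7.H83.Trk.Series

set_option autoImplicit false

/-!
# Mollification by the kernel `exp (-4 L² / t - b² t)`
-/

open Set Filter Topology MeasureTheory

namespace Pool.Agent.K7.H83.Trk

open Pool.Agent.R190.Trk

/-- the parameter `α = 4 L²` -/
noncomputable def al (L : ℝ) : ℝ := 4 * L ^ 2

lemma al_pos {L : ℝ} (hL : 0 < L) : 0 < al L := by unfold al; positivity

/-- the (not normalised) kernel -/
noncomputable def gk (L b : ℝ) (t : ℝ) : ℝ := pk (al L) (b ^ 2) 0 t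

lemma gk_nonneg (L b t : ℝ) : 0 ≤ gk L b t := pk_zero_nonneg t

lemma gk_of_nonpos {L b t : ℝ} (ht : t ≤ 0) : gk L b t = 0 := pk_zero_of_nonpos 0 ht

lemma gk_le {L b : ℝ} (hL : 0 < L) {t : ℝ} (ht : 0 < t) : gk L b t ≤ Real.exp (-(b ^ 2 * t)) := by
  unfold gk
  rw [pk_zero_pos ht]
  apply Real.exp_le_exp.2
  have : 0 ≤ al L / t := div_nonneg (al_pos hL).le ht.le
  linarith

lemma gk_cont {L : ℝ} (hL : 0 < L) (b : ℝ) : Continuous (gk L b) :=
  pk_continuous (al_pos hL) (sq_nonneg b) 0

lemma exp_int {c : ℝ} (hc : 0 < c) : IntegrableOn (fun t : ℝ => Real.exp (-(c * t))) (Ioi 0) := by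
  have := integrableOn_exp_mul_Ioi (a := -c) (by linarith) 0
  refine this.congr_fun (fun t _ => ?_) measurableSet_Ioi
  simp

lemma texp_int {c : ℝ} (hc : 0 < c) :
    IntegrableOn (fun t : ℝ => t * Real.exp (-(c * t))) (Ioi 0) := by
  have h := Real.GammaIntegral_convergent (s := 2) (by norm_num)
  have h2 : IntegrableOn (fun t : ℝ => t * Real.exp (-t)) (Ioi 0) := by
    refine h.congr_fun (fun t _ => ?_) measurableSet_Ioi
    simp only
    rw [show (2 : ℝ) - 1 = 1 by norm_num, Real.rpow_one]; ring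
  have h3 := (integrableOn_Ioi_comp_mul_left_iff (fun t : ℝ => t * Real.exp (-t)) 0 hc).2
    (by simpa using h2)
  have h4 : IntegrableOn (fun t : ℝ => c⁻¹ * (c * t * Real.exp (-(c * t)))) (Ioi 0) :=
    h3.const_mul c⁻¹
  refine h4.congr_fun (fun t _ => ?_) measurableSet_Ioi
  simp only
  field_simp

lemma texp_val {c : ℝ} (hc : 0 < c) :
    ∫ t in Ioi (0 : ℝ), t * Real.exp (-(c * t)) = 1 / c ^ 2 := by
  have h := Real.integral_rpow_mul_exp_neg_mul_Ioi (a := 2) (r := c) (by norm_num) hc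
  rw [show (2 : ℝ) - 1 = 1 by norm_num] at h
  simp only [Real.rpow_one] at h
  rw [h]
  have : Real.Gamma 2 = 1 := by
    have := Real.Gamma_nat_eq_factorial 1
    rw [show ((1 : ℕ) : ℝ) + 1 = 2 by norm_num] at this
    rw [this]; simp
  rw [this, mul_one]
  rw [show (2 : ℝ) = ((2 : ℕ) : ℝ) by norm_num, Real.rpow_natCast]
  simp

lemma gk_eq_ind (L b : ℝ) : gk L b = (Ioi (0 : ℝ)).indicator (gk L b) := by
  funext t
  by_cases h : t ∈ Ioi (0 : ℝ)
  · rw [indicator_of_mem h]
  · rw [indicator_of_notMem h]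
    exact gk_of_nonpos (not_lt.1 h)

lemma gk_int {L b : ℝ} (hL : 0 < L) (hb : 0 < b) : Integrable (gk L b) := by
  rw [gk_eq_ind, integrable_indicator_iff measurableSet_Ioi]
  refine Integrable.mono' (exp_int (c := b ^ 2) (by positivity))
    (gk_cont hL b).aestronglyMeasurable.restrict ?_
  refine (ae_restrict_iff' measurableSet_Ioi).2 (Eventually.of_forall fun t ht => ?_)
  rw [Real.norm_eq_abs, abs_of_nonneg (gk_nonneg _ _ _)]
  exact gk_le hL ht

lemma tgk_int {L b : ℝ} (hL : 0 < L) (hb : 0 < b) : Integrable (fun t => |t| * gk L b t) := by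
  have e : (fun t => |t| * gk L b t) = (Ioi (0 : ℝ)).indicator (fun t => |t| * gk L b t) := by
    funext t
    by_cases h : t ∈ Ioi (0 : ℝ)
    · rw [indicator_of_mem h]
    · rw [indicator_of_notMem h, gk_of_nonpos (not_lt.1 h), mul_zero]
  rw [e, integrable_indicator_iff measurableSet_Ioi]
  refine Integrable.mono' (texp_int (c := b ^ 2) (by positivity))
    ((continuous_abs.mul (gk_cont hL b)).aestronglyMeasurable.restrict) ?_
  refine (ae_restrict_iff' measurableSet_Ioi).2 (Eventually.of_forall fun t ht => ?_)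
  have ht' : (0 : ℝ) < t := ht
  rw [Real.norm_eq_abs, abs_mul, abs_abs, abs_of_nonneg (gk_nonneg _ _ _), abs_of_pos ht']
  exact mul_le_mul_of_nonneg_left (gk_le hL ht) ht'.le

/-- the total mass of the kernel -/
noncomputable def G0 (L b : ℝ) : ℝ := ∫ t, gk L b t

lemma G0_ge {L b : ℝ} (hL : 0 < L) (hb : 0 < b) : 2 * L / b * Real.exp (-(6 * L * b)) ≤ G0 L b := by
  unfold G0
  have ht0 : 0 < 2 * L / b := by positivity
  have h1 : ∫ t in Ioc (2 * L / b) (4 * L / b), Real.exp (-(6 * L * b)) ≤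
      ∫ t in Ioc (2 * L / b) (4 * L / b), gk L b t := by
    refine setIntegral_mono_on (integrableOn_const (by simp)) (gk_int hL hb).integrableOn
      measurableSet_Ioc fun t ht => ?_
    have ht1 : 0 < t := ht0.trans ht.1
    unfold gk
    rw [pk_zero_pos ht1]
    apply Real.exp_le_exp.2
    have h2 : al L / t ≤ 2 * L * b := by
      rw [div_le_iff₀ ht1]
      have h3 := ht.1.le
      rw [div_le_iff₀ hb] at h3
      unfold al
      nlinarith
    have h3 : b ^ 2 * t ≤ 4 * L * b := by
      have h4 := ht.2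
      rw [le_div_iff₀ hb] at h4
      nlinarith
    linarith
  have h2 : ∫ t in Ioc (2 * L / b) (4 * L / b), gk L b t ≤ ∫ t, gk L b t :=
    setIntegral_le_integral (gk_int hL hb) (Eventually.of_forall fun t => gk_nonneg _ _ _)
  refine le_trans (le_of_eq ?_) (h1.trans h2)
  rw [setIntegral_const]
  simp only [measureReal_def, Real.volume_Ioc, smul_eq_mul]
  rw [ENNReal.toReal_ofReal (by
    rw [sub_nonneg]; exact div_le_div_of_nonneg_right (by linarith) hb.le)]
  ring

lemma G0_pos {L b : ℝ} (hL : 0 < L) (hb : 0 < b) : 0 < G0 L b :=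
  lt_of_lt_of_le (by positivity) (G0_ge hL hb)

lemma G1_le {L b : ℝ} (hL : 0 < L) (hb : 1 ≤ b) :
    ∫ t, |t| * gk L b t ≤ (12 * L + 2 / L) / b * G0 L b := by
  have hb0 : 0 < b := by linarith
  have hc : 0 < b ^ 2 / 2 := by positivity
  -- pointwise bound
  set f : ℝ → ℝ := fun t => 12 * L / b * gk L b t with hf
  set g : ℝ → ℝ := (Ioi (0 : ℝ)).indicator
    (fun t => Real.exp (-(6 * L * b)) * (t * Real.exp (-(b ^ 2 / 2 * t)))) with hg
  have hfi : Integrable f := (gk_int hL hb0).const_mul _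
  have hgi : Integrable g := by
    rw [hg, integrable_indicator_iff measurableSet_Ioi]
    exact (texp_int hc).const_mul _
  have hle : ∀ t, |t| * gk L b t ≤ f t + g t := by
    intro t
    rcases lt_or_ge 0 t with ht | ht
    · have hg1 : g t = Real.exp (-(6 * L * b)) * (t * Real.exp (-(b ^ 2 / 2 * t))) := by
        rw [hg, indicator_of_mem (show t ∈ Ioi (0 : ℝ) from ht)]
      have hg0 : 0 ≤ g t := by rw [hg1]; positivity
      have hf0 : 0 ≤ f t := mul_nonneg (by positivity) (gk_nonneg _ _ _)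
      rw [abs_of_pos ht]
      rcases le_or_gt t (12 * L / b) with h | h
      · have : t * gk L b t ≤ f t := mul_le_mul_of_nonneg_right h (gk_nonneg _ _ _)
        linarith
      · have h1 : t * gk L b t ≤ t * Real.exp (-(b ^ 2 * t)) :=
          mul_le_mul_of_nonneg_left (gk_le hL ht) ht.le
        have h2 : t * Real.exp (-(b ^ 2 * t)) ≤ g t := by
          rw [hg1]
          have h3 : Real.exp (-(b ^ 2 * t)) ≤
              Real.exp (-(6 * L * b)) * Real.exp (-(b ^ 2 / 2 * t)) := by
            rw [← Real.exp_add]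
            apply Real.exp_le_exp.2
            rw [div_lt_iff₀ hb0] at h
            nlinarith
          nlinarith [mul_le_mul_of_nonneg_left h3 ht.le]
        linarith
    · have hg1 : g t = 0 := by
        rw [hg, indicator_of_notMem (show t ∉ Ioi (0 : ℝ) from not_lt.2 ht)]
      rw [hf, hg1, gk_of_nonpos ht]
      simp only
      rw [gk_of_nonpos ht]; simp
  have h1 : ∫ t, |t| * gk L b t ≤ ∫ t, (f t + g t) :=
    integral_mono (tgk_int hL hb0) (hfi.add hgi) hle
  rw [integral_add hfi hgi] at h1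
  have hF : ∫ t, f t = 12 * L / b * G0 L b := by rw [hf, integral_const_mul]; rfl
  have hG : ∫ t, g t = Real.exp (-(6 * L * b)) * (4 / b ^ 4) := by
    rw [hg, integral_indicator measurableSet_Ioi, integral_const_mul, texp_val hc]
    congr 1
    field_simp
    norm_num
  rw [hF, hG] at h1
  have h2 : Real.exp (-(6 * L * b)) * (4 / b ^ 4) ≤ 2 / L / b * G0 L b := by
    have h3 := G0_ge hL hb0
    have h4 : Real.exp (-(6 * L * b)) ≤ b / (2 * L) * G0 L b := by
      have h5 := mul_le_mul_of_nonneg_left h3 (show 0 ≤ b / (2 * L) by positivity)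
      have h6 : b / (2 * L) * (2 * L / b * Real.exp (-(6 * L * b))) = Real.exp (-(6 * L * b)) := by
        field_simp
      linarith
    have h7 : Real.exp (-(6 * L * b)) * (4 / b ^ 4) ≤ b / (2 * L) * G0 L b * (4 / b ^ 4) :=
      mul_le_mul_of_nonneg_right h4 (by positivity)
    have h8 : b / (2 * L) * G0 L b * (4 / b ^ 4) = (2 / L / b * G0 L b) * (1 / b ^ 2) := by
      field_simp
      ring
    have h9 : (2 / L / b * G0 L b) * (1 / b ^ 2) ≤ 2 / L / b * G0 L b := by
      have h10 : 0 ≤ 2 / L / b * G0 L b := mul_nonneg (by positivity) (G0_pos hL hb0).le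
      have h11 : 1 / b ^ 2 ≤ 1 := by
        rw [div_le_one (by positivity)]
        nlinarith
      nlinarith
    linarith
  calc ∫ t, |t| * gk L b t ≤ 12 * L / b * G0 L b + 2 / L / b * G0 L b := by linarith
    _ = _ := by ring

/-- the target extended by zero -/
noncomputable def W (T : ℝ) (w : ℝ → ℝ) : ℝ → ℝ := (Icc 0 T).indicator w

/-- the mollified target and its derivatives -/
noncomputable def qk (L T b : ℝ) (w : ℝ → ℝ) (k : ℕ) (t : ℝ) : ℝ :=
  (G0 L b)⁻¹ * ∫ s, W T w s * pk (al L) (b ^ 2) k (t - s)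

/-- Lipschitz targets -/
structure Target (T Λ : ℝ) (w : ℝ → ℝ) : Prop where
  hΛ : 0 ≤ Λ
  lip : ∀ s ∈ Icc 0 T, ∀ t ∈ Icc 0 T, |w s - w t| ≤ Λ * |s - t|
  zero : w 0 = 0

variable {L T b Λ : ℝ} {w : ℝ → ℝ}

lemma Target.cont (h : Target T Λ w) : ContinuousOn w (Icc 0 T) := by
  have : LipschitzOnWith ⟨Λ, h.hΛ⟩ w (Icc 0 T) := by
    refine LipschitzOnWith.of_dist_le_mul fun s hs t ht => ?_
    rw [Real.dist_eq, Real.dist_eq]
    exact h.lip s hs t ht
  exact this.continuousOn

lemma Target.abs_le (h : Target T Λ w) {t : ℝ} (ht : t ∈ Icc 0 T) : |w t| ≤ Λ * t := by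
  have h0 : (0 : ℝ) ∈ Icc 0 T := ⟨le_rfl, ht.1.trans ht.2⟩
  have := h.lip t ht 0 h0
  rw [h.zero, sub_zero, sub_zero, abs_of_nonneg ht.1] at this
  exact this

lemma Target.W_int (h : Target T Λ w) : Integrable (W T w) := by
  unfold W
  rw [integrable_indicator_iff measurableSet_Icc]
  exact h.cont.integrableOn_Icc

lemma Target.W_norm (h : Target T Λ w) (hT : 0 ≤ T) : ∫ s, |W T w s| ≤ Λ * T ^ 2 := by
  have e : (fun s => |W T w s|) = (Icc 0 T).indicator (fun s => |w s|) := by
    funext s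
    unfold W
    by_cases hs : s ∈ Icc 0 T
    · rw [indicator_of_mem hs, indicator_of_mem hs]
    · rw [indicator_of_notMem hs, indicator_of_notMem hs, abs_zero]
  rw [e, integral_indicator measurableSet_Icc]
  have h1 : ∫ s in Icc 0 T, |w s| ≤ ∫ s in Icc 0 T, Λ * T := by
    refine setIntegral_mono_on h.cont.abs.integrableOn_Icc (integrableOn_const (by simp))
      measurableSet_Icc fun s hs => ?_
    exact (h.abs_le hs).trans (mul_le_mul_of_nonneg_left hs.2 h.hΛ)
  refine h1.trans (le_of_eq ?_)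
  rw [setIntegral_const]
  simp only [measureReal_def, Real.volume_Icc, smul_eq_mul, sub_zero]
  rw [ENNReal.toReal_ofReal hT]
  ring

lemma int_term (h : Target T Λ w) (hL : 0 < L) (k : ℕ) (t : ℝ) :
    Integrable fun s => W T w s * pk (al L) (b ^ 2) k (t - s) := by
  have hp : Continuous fun s => pk (al L) (b ^ 2) k (t - s) :=
    (pk_continuous (al_pos hL) (sq_nonneg b) k).comp (continuous_const.sub continuous_id)
  refine h.W_int.mul_bdd (c := (2 * k).factorial * (3 / al L) ^ k) hp.aestronglyMeasurable ?_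
  exact Eventually.of_forall fun s => pk_abs_le (al_pos hL) (sq_nonneg b) k _

lemma qk_deriv (h : Target T Λ w) (hL : 0 < L) (k : ℕ) (t : ℝ) :
    HasDerivAt (qk L T b w k) (qk L T b w (k + 1) t) t := by
  unfold qk
  refine HasDerivAt.const_mul _ ?_
  refine (hasDerivAt_integral_of_dominated_loc_of_deriv_le (s := univ)
    (F := fun t s => W T w s * pk (al L) (b ^ 2) k (t - s))
    (F' := fun t s => W T w s * pk (al L) (b ^ 2) (k + 1) (t - s))
    (bound := fun s => |W T w s| * ((2 * (k + 1)).factorial * (3 / al L) ^ (k + 1)))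
    univ_mem (Eventually.of_forall fun t => (int_term h hL k t).aestronglyMeasurable)
    (int_term h hL k t) (int_term h hL (k + 1) t).aestronglyMeasurable ?_ ?_ ?_).2
  · refine Eventually.of_forall fun s x _ => ?_
    rw [Real.norm_eq_abs, abs_mul]
    exact mul_le_mul_of_nonneg_left (pk_abs_le (al_pos hL) (sq_nonneg b) _ _) (abs_nonneg _)
  · exact h.W_int.abs.mul_const _
  · refine Eventually.of_forall fun s x _ => ?_
    have h1 := (pk_hasDeriv (al_pos hL) (sq_nonneg b) k (x - s)).comp x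
      ((hasDerivAt_id x).sub_const s)
    simp only [mul_one] at h1
    exact h1.const_mul _

lemma qk_zero (k : ℕ) {t : ℝ} (ht : t ≤ 0) : qk L T b w k t = 0 := by
  unfold qk
  have : (fun s => W T w s * pk (al L) (b ^ 2) k (t - s)) = fun _ => 0 := by
    funext s
    rcases lt_or_ge s 0 with hs | hs
    · unfold W
      rw [indicator_of_notMem (fun hh => absurd hh.1 (not_le.2 hs)), zero_mul]
    · rw [pk_zero_of_nonpos k (by linarith), mul_zero]
  rw [this]
  simp

lemma qk_bd (h : Target T Λ w) (hL : 0 < L) (hT : 0 ≤ T) (hb : 0 < b) (k : ℕ) (t : ℝ) :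
    |qk L T b w k t| ≤ (b / (2 * L) * Real.exp (6 * L * b) * (Λ * T ^ 2)) *
      ((2 * k).factorial * (3 / al L) ^ k) := by
  unfold qk
  rw [abs_mul, abs_of_nonneg (inv_nonneg.2 (G0_pos hL hb).le)]
  have h1 : |∫ s, W T w s * pk (al L) (b ^ 2) k (t - s)| ≤
      (Λ * T ^ 2) * ((2 * k).factorial * (3 / al L) ^ k) := by
    have h2 : ‖∫ s, W T w s * pk (al L) (b ^ 2) k (t - s)‖ ≤
        ∫ s, |W T w s| * ((2 * k).factorial * (3 / al L) ^ k) := by
      refine norm_integral_le_of_norm_le (h.W_int.abs.mul_const _)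
        (Eventually.of_forall fun s => ?_)
      rw [Real.norm_eq_abs, abs_mul]
      exact mul_le_mul_of_nonneg_left (pk_abs_le (al_pos hL) (sq_nonneg b) _ _) (abs_nonneg _)
    rw [integral_mul_const, Real.norm_eq_abs] at h2
    refine h2.trans (mul_le_mul_of_nonneg_right (h.W_norm hT) ?_)
    have := al_pos hL
    positivity
  have h3 : (G0 L b)⁻¹ ≤ b / (2 * L) * Real.exp (6 * L * b) := by
    have h4 := inv_anti₀ (by positivity) (G0_ge hL hb)
    refine h4.trans (le_of_eq ?_)
    rw [mul_inv, inv_div, Real.exp_neg, inv_inv]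
  have h5 : 0 ≤ (Λ * T ^ 2) * ((2 * k).factorial * (3 / al L) ^ k) := by
    have := al_pos hL
    have := h.hΛ
    positivity
  calc (G0 L b)⁻¹ * |∫ s, W T w s * pk (al L) (b ^ 2) k (t - s)|
      ≤ (b / (2 * L) * Real.exp (6 * L * b)) * ((Λ * T ^ 2) * ((2 * k).factorial * (3 / al L) ^ k)) :=
        mul_le_mul h3 h1 (abs_nonneg _) (by positivity)
    _ = _ := by ring

lemma qk_err (h : Target T Λ w) (hL : 0 < L) (hb : 1 ≤ b) {t : ℝ} (ht : t ∈ Icc 0 T) :
    |qk L T b w 0 t - w t| ≤ Λ * ((12 * L + 2 / L) / b) := by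
  have hb0 : 0 < b := by linarith
  have hG := G0_pos hL hb0
  unfold qk
  have e1 : ∫ s, W T w s * pk (al L) (b ^ 2) 0 (t - s) = ∫ s, W T w (t - s) * gk L b s := by
    rw [← integral_sub_left_eq_self (fun s => W T w (t - s) * gk L b s) volume t]
    refine integral_congr_ae (Eventually.of_forall fun s => ?_)
    simp only [gk]
    rw [sub_sub_cancel]
  have hi1 : Integrable fun s => W T w (t - s) * gk L b s := by
    have := (int_term (b := b) h hL 0 t).comp_sub_left t
    refine this.congr (Eventually.of_forall fun s => ?_)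
    simp only [gk]
    rw [sub_sub_cancel]
  have e2 : (G0 L b)⁻¹ * ∫ s, w t * gk L b s = w t := by
    rw [integral_const_mul]
    change (G0 L b)⁻¹ * (w t * G0 L b) = w t
    field_simp
  have hi2 : Integrable fun s => w t * gk L b s := (gk_int hL hb0).const_mul _
  have e3 : (G0 L b)⁻¹ * (∫ s, W T w s * pk (al L) (b ^ 2) 0 (t - s)) - w t =
      (G0 L b)⁻¹ * ∫ s, (W T w (t - s) * gk L b s - w t * gk L b s) := by
    rw [integral_sub hi1 hi2, mul_sub, e2, e1]
  rw [e3, abs_mul, abs_of_nonneg (inv_nonneg.2 hG.le)]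
  have h1 : ‖∫ s, (W T w (t - s) * gk L b s - w t * gk L b s)‖ ≤ ∫ s, Λ * (|s| * gk L b s) := by
    refine norm_integral_le_of_norm_le ((tgk_int hL hb0).const_mul _)
      (Eventually.of_forall fun s => ?_)
    rcases le_or_gt s 0 with hs | hs
    · rw [gk_of_nonpos hs]; simp
    · rw [← sub_mul, norm_mul, Real.norm_eq_abs, Real.norm_eq_abs,
        abs_of_nonneg (gk_nonneg _ _ _), ← mul_assoc]
      refine mul_le_mul_of_nonneg_right ?_ (gk_nonneg _ _ _)
      rw [abs_of_pos hs]
      rcases le_or_gt s t with hst | hst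
      · have hm : t - s ∈ Icc 0 T := ⟨by linarith, by linarith [ht.2]⟩
        unfold W
        rw [indicator_of_mem hm]
        have := h.lip (t - s) hm t ht
        rw [show t - s - t = -s by ring, abs_neg, abs_of_pos hs] at this
        exact this
      · unfold W
        rw [indicator_of_notMem (fun hh => absurd hh.1 (not_le.2 (by linarith))), zero_sub, abs_neg]
        exact (h.abs_le ht).trans (mul_le_mul_of_nonneg_left hst.le h.hΛ)
  rw [integral_const_mul, Real.norm_eq_abs] at h1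
  have h2 := G1_le hL hb
  calc (G0 L b)⁻¹ * |∫ s, (W T w (t - s) * gk L b s - w t * gk L b s)|
      ≤ (G0 L b)⁻¹ * (Λ * ((12 * L + 2 / L) / b * G0 L b)) := by
        apply mul_le_mul_of_nonneg_left _ (inv_nonneg.2 hG.le)
        exact h1.trans (mul_le_mul_of_nonneg_left h2 h.hΛ)
    _ = Λ * ((12 * L + 2 / L) / b) := by field_simp

/-- **Upper bound for the tracking cost.** -/
theorem track (h : Target T Λ w) (hL : 0 < L) (hT : 0 < T) {ε : ℝ} (hε : 0 < ε) :
    ∃ v : ℝ → ℝ, Achieves L T w ε v ∧ nrm T v ≤ 2 * T ^ 2 * Real.exp (6 * L + 1) * Λ *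
      Real.exp ((6 * L + 1) * (12 * L + 2 / L) * Λ / ε) := by
  set κ : ℝ := 12 * L + 2 / L with hκ
  have hκ0 : 0 < κ := by positivity
  set b : ℝ := max 1 (κ * Λ / ε) with hbdef
  have hb1 : 1 ≤ b := le_max_left _ _
  have hb0 : 0 < b := by linarith
  have hΛ := h.hΛ
  set M : ℝ := b / (2 * L) * Real.exp (6 * L * b) * (Λ * T ^ 2) with hM
  have hgev : Gev (qk L T b w) M (3 / al L) (11 / 10 * L) := by
    refine ⟨by positivity, by have := al_pos hL; positivity, by positivity, ?_,
      fun k t => qk_deriv h hL k t, fun k t => qk_bd h hL hT.le hb0 k t⟩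
    unfold al
    rw [div_mul_eq_mul_div, div_lt_one (by positivity)]
    nlinarith [mul_pos hL hL]
  have hach : Achieves L T w ε (fun t => sol (qk L T b w) t L) := by
    refine achieves hgev hL (by linarith) (fun k t ht => qk_zero k ht) fun t ht => ?_
    refine (qk_err h hL hb1 ht).trans ?_
    rw [← hκ]
    have h1 : κ * Λ / ε ≤ b := le_max_right _ _
    rw [div_le_iff₀ hε] at h1
    rw [← mul_div_assoc, div_le_iff₀ hb0]
    linarith
  refine ⟨_, hach, ?_⟩
  have hb2 : b ≤ 1 + κ * Λ / ε := by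
    apply max_le
    · have : 0 ≤ κ * Λ / ε := by positivity
      linarith
    · linarith
  have hbe : b * Real.exp (6 * L * b) ≤ Real.exp ((6 * L + 1) * b) := by
    have h1 : b ≤ Real.exp b := by linarith [Real.add_one_le_exp b]
    calc b * Real.exp (6 * L * b) ≤ Real.exp b * Real.exp (6 * L * b) :=
          mul_le_mul_of_nonneg_right h1 (Real.exp_pos _).le
      _ = _ := by rw [← Real.exp_add]; congr 1; ring
  have hbe2 : Real.exp ((6 * L + 1) * b) ≤
      Real.exp (6 * L + 1) * Real.exp ((6 * L + 1) * κ * Λ / ε) := by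
    rw [← Real.exp_add]
    apply Real.exp_le_exp.2
    have h1 := mul_le_mul_of_nonneg_left hb2 (show 0 ≤ 6 * L + 1 by positivity)
    have h2 : (6 * L + 1) * (1 + κ * Λ / ε) = 6 * L + 1 + (6 * L + 1) * κ * Λ / ε := by ring
    linarith
  unfold nrm
  refine csSup_le ⟨_, ⟨0, ⟨le_rfl, hT.le⟩, rfl⟩⟩ ?_
  rintro r ⟨t, _, rfl⟩
  have h1 := sol_abs_le hgev hL.le (by linarith : L ≤ 11 / 10 * L) (abs_of_pos hL).le t
  refine h1.trans ?_
  have h2 : 1 - 3 / al L * L ^ 2 = 1 / 4 := by
    unfold al; field_simp; norm_num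
  rw [h2]
  have h3 : M * L / (1 / 4) = 2 * T ^ 2 * Λ * (b * Real.exp (6 * L * b)) := by
    rw [hM]; field_simp; ring
  rw [h3]
  calc 2 * T ^ 2 * Λ * (b * Real.exp (6 * L * b))
      ≤ 2 * T ^ 2 * Λ * (Real.exp (6 * L + 1) * Real.exp ((6 * L + 1) * κ * Λ / ε)) :=
        mul_le_mul_of_nonneg_left (hbe.trans hbe2) (by positivity)
    _ = _ := by ring

end Pool.Agent.K7.H83.Trk
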